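import Pool.Agent.Helper61.QE.St5

/-!
# Project QD (MP_d112a4_gt), PART E, module SWP: exchange of the fundamental domains
-/

open MeasureTheory Set Filter Topology Complex
open scoped ContDiff ComplexConjugate ENNReal

namespace Pool.Agent.Helper38.QE

open Pool.Agent.Helper68.QC Pool.Agent.Helper61.QE

private theorem rf_rf (z : ℂ) : rf (rf z) = z := by
  unfold rf
  simp

private theorem rf_meas : Measurable rf := by
  unfold rf
  have : Measurable fun z : ℂ => conj z := Complex.continuous_conj.measurable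
  exact measurable_const.div this

private theorem den_meas (A : SL) : Measurable (den A) := by
  unfold den
  fun_prop

private theorem mob_meas (A : SL) : Measurable (mob A) := by
  unfold mob
  exact (by fun_prop : Measurable fun z : ℂ => A 0 0 * z + A 0 1).div (den_meas A)

private theorem den_sub (A : SL) : {ξ : ℂ | den A ξ = 0}.Subsingleton := by
  intro x hx y hy
  have hx' : A 1 0 * x + A 1 1 = 0 := hx
  have hy' : A 1 0 * y + A 1 1 = 0 := hy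
  have hdet : A 0 0 * A 1 1 - A 0 1 * A 1 0 = 1 := by
    have := A.det_coe
    rw [Matrix.det_fin_two] at this
    exact this
  have h1 : A 1 0 * (x - y) = 0 := by linear_combination hx' - hy'
  rcases mul_eq_zero.1 h1 with h | h
  · rw [h, zero_mul, zero_add] at hx'
    rw [h, hx'] at hdet
    norm_num at hdet
  · exact sub_eq_zero.1 h

/-- the kernel -/
private noncomputable def kk (ξ a : ℂ) : ℝ≥0∞ := ENNReal.ofReal (‖ξ - a‖⁻¹ ^ 4)

private theorem kk_meas : Measurable (fun p : ℂ × ℂ => kk p.1 p.2) := by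
  unfold kk
  exact (((measurable_fst.sub measurable_snd).norm.inv).pow_const 4).ennreal_ofReal

private theorem kk_def (ξ a : ℂ) : kk ξ a = ENNReal.ofReal (‖ξ - a‖⁻¹ ^ 4) := rfl

attribute [local irreducible] kk

/-- the transported kernel -/
private noncomputable def KK (A : SL) (ξ a : ℂ) : ℝ≥0∞ :=
  kk ξ (mob A a) * ENNReal.ofReal (‖den A a‖⁻¹ ^ 4)

private theorem comp_meas (f : ℂ → ℂ → ℝ≥0∞) (g : ℂ → ℂ)
    (hf : Measurable (fun p : ℂ × ℂ => f p.1 p.2)) (hg : Measurable g) :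
    Measurable (fun p : ℂ × ℂ => f p.1 (g p.2)) := by
  have h1 : Measurable (fun p : ℂ × ℂ => ((p.1, g p.2) : ℂ × ℂ)) :=
    measurable_fst.prodMk (hg.comp measurable_snd)
  exact Measurable.comp (g := fun p : ℂ × ℂ => f p.1 p.2) (f := fun p : ℂ × ℂ => (p.1, g p.2)) hf h1

private theorem KK_meas (A : SL) : Measurable (fun p : ℂ × ℂ => KK A p.1 p.2) := by
  have h1 : Measurable (fun p : ℂ × ℂ => kk p.1 (mob A p.2)) :=
    comp_meas kk (mob A) kk_meas (mob_meas A)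
  have h2 : Measurable (fun p : ℂ × ℂ => ENNReal.ofReal (‖den A p.2‖⁻¹ ^ 4)) :=
    ((((den_meas A).comp measurable_snd).norm.inv).pow_const 4).ennreal_ofReal
  exact Measurable.mul h1 h2

/-- the pointwise identity -/
private theorem kk_id (hSUB : StSUB) (A : SL) (ξ' a : ℂ) (h : den A⁻¹ ξ' ≠ 0) (ha : den A a ≠ 0) :
    kk (mob A⁻¹ ξ') a * ENNReal.ofReal (‖deriv (mob A⁻¹) ξ'‖ ^ 2) = KK A ξ' a := by
  obtain ⟨_, h2, h3, _, _, _, _, _, _, h10⟩ := hSUB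
  obtain ⟨e1, e2⟩ := h10 A⁻¹ ξ' h
  rw [inv_inv] at e1 e2
  obtain ⟨ξ, hξ⟩ : ∃ ξ, ξ = mob A⁻¹ ξ' := ⟨_, rfl⟩
  rw [← hξ] at e1 e2 ⊢
  have hdξ : den A ξ ≠ 0 := by
    intro h0
    rw [h0, zero_mul] at e2
    exact zero_ne_one e2
  have e3 := h3 A ξ a hdξ ha
  rw [e1] at e3
  unfold KK kk
  rw [(h2 A⁻¹ ξ' h).deriv, e3, ← ENNReal.ofReal_mul (by positivity),
    ← ENNReal.ofReal_mul (by positivity)]
  congr 1
  have n1 : ‖den A ξ‖ * ‖den A⁻¹ ξ'‖ = 1 := by rw [← norm_mul, e2, norm_one]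
  have p1 : 0 < ‖den A ξ‖ := norm_pos_iff.2 hdξ
  have p2 : 0 < ‖den A⁻¹ ξ'‖ := norm_pos_iff.2 h
  have p3 : 0 < ‖den A a‖ := norm_pos_iff.2 ha
  have n2 : ‖den A⁻¹ ξ'‖ = ‖den A ξ‖⁻¹ := eq_inv_of_mul_eq_one_right n1
  rw [norm_inv, norm_pow, norm_div, norm_mul, n2]
  generalize ‖ξ - a‖ = x
  field_simp

private theorem KK_def (A : SL) (ξ a : ℂ) :
    KK A ξ a = kk ξ (mob A a) * ENNReal.ofReal (‖den A a‖⁻¹ ^ 4) := by
  unfold KK
  rfl

attribute [local irreducible] KK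

/-- the assembly (Tonelli) -/
private theorem assemble {Γ : Type} [Group Γ] {F : Set ℂ} (G : ℂ ≃ₜ ℂ) (R : Γ →* SL)
    (hcount : Countable Γ) (E : Set ℂ) (W : Γ → Set ℂ) (hEmeas : MeasurableSet E)
    (hGF : MeasurableSet (G '' F))
    (hWmeas : ∀ γ, MeasurableSet (W γ)) (hWdisj : Pairwise (Function.onFun Disjoint W))
    (hcover : (G '' Dx : Set ℂ) =ᵐ[volume] ⋃ γ, W γ)
    (hcv : ∀ γ, ∀ a ∈ G '' F, ∫⁻ ξ in W γ, kk ξ a = ∫⁻ ξ in E, KK (R γ) ξ a)
    (i3 : ∀ g : ℂ → ℝ≥0∞, Measurable g → ∫⁻ ξ in G '' D, g ξ =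
      ∑' γ : Γ, ∫⁻ ξ in G '' F, g (mob (R γ) ξ) * ENNReal.ofReal (‖den (R γ) ξ‖⁻¹ ^ 4)) :
    ∫⁻ a in G '' F, ∫⁻ ξ in G '' Dx, ENNReal.ofReal (‖ξ - a‖⁻¹ ^ 4) =
      ∫⁻ ξ in E, ∫⁻ a in G '' D, ENNReal.ofReal (‖ξ - a‖⁻¹ ^ 4) := by
  have hm : ∀ γ, Measurable (fun a => ∫⁻ ξ in E, KK (R γ) ξ a) := by
    intro γ
    have h1 : Measurable (fun p : ℂ × ℂ => KK (R γ) p.2 p.1) :=
      (KK_meas (R γ)).comp measurable_swap
    exact Measurable.lintegral_prod_right' (ν := volume.restrict E)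
      (f := fun p : ℂ × ℂ => KK (R γ) p.2 p.1) h1
  have hm' : ∀ γ, Measurable (fun ξ => ∫⁻ a in G '' F, KK (R γ) ξ a) := by
    intro γ
    exact Measurable.lintegral_prod_right' (ν := volume.restrict (G '' F))
      (f := fun p : ℂ × ℂ => KK (R γ) p.1 p.2) (KK_meas (R γ))
  have hL : ∫⁻ a in G '' F, ∫⁻ ξ in G '' Dx, kk ξ a =
      ∑' γ : Γ, ∫⁻ a in G '' F, ∫⁻ ξ in E, KK (R γ) ξ a := by
    rw [← lintegral_tsum fun γ => (hm γ).aemeasurable]
    refine setLIntegral_congr_fun hGF ?_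
    intro a ha
    have e1 : ∫⁻ ξ in G '' Dx, kk ξ a = ∫⁻ ξ in ⋃ γ, W γ, kk ξ a := setLIntegral_congr hcover
    have e2 : ∫⁻ ξ in ⋃ γ, W γ, kk ξ a = ∑' γ, ∫⁻ ξ in W γ, kk ξ a :=
      lintegral_iUnion hWmeas hWdisj _
    have e3 : ∑' γ, ∫⁻ ξ in W γ, kk ξ a = ∑' γ, ∫⁻ ξ in E, KK (R γ) ξ a :=
      tsum_congr fun γ => hcv γ a ha
    exact e1.trans (e2.trans e3)
  have hRr : ∫⁻ ξ in E, ∫⁻ a in G '' D, kk ξ a =
      ∑' γ : Γ, ∫⁻ ξ in E, ∫⁻ a in G '' F, KK (R γ) ξ a := by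
    rw [← lintegral_tsum fun γ => (hm' γ).aemeasurable]
    refine lintegral_congr fun ξ => ?_
    have h2 : Measurable (fun a : ℂ => kk ξ a) := kk_meas.comp (measurable_const.prodMk measurable_id)
    simp only [KK_def]
    exact i3 (fun a => kk ξ a) h2
  have hswap : ∀ γ, ∫⁻ a in G '' F, ∫⁻ ξ in E, KK (R γ) ξ a =
      ∫⁻ ξ in E, ∫⁻ a in G '' F, KK (R γ) ξ a := by
    intro γ
    have h1 : Measurable (Function.uncurry fun a ξ : ℂ => KK (R γ) ξ a) :=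
      (KK_meas (R γ)).comp measurable_swap
    exact lintegral_lintegral_swap h1.aemeasurable
  have key : ∫⁻ a in G '' F, ∫⁻ ξ in G '' Dx, kk ξ a = ∫⁻ ξ in E, ∫⁻ a in G '' D, kk ξ a := by
    rw [hL, hRr]
    exact tsum_congr hswap
  simp only [kk_def] at key
  exact key

theorem pSWP (hSUB : Pool.Agent.Helper61.QE.StSUB) (hFUX : Pool.Agent.Helper61.QE.StFUX)
    (hIND : Pool.Agent.Helper61.QE.StIND) (hCVH : Pool.Agent.Helper61.QE.StCVH) :
    Pool.Agent.Helper61.QE.StSWP := by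
  intro Γ _ s F G R hs hF hR
  obtain ⟨hcount, _, _⟩ := hFUX Γ s hs
  obtain ⟨i1, _, i3⟩ := hIND Γ s F G R hs hF hR
  have hSUB' := hSUB
  obtain ⟨h1, h2, h3, h4, h5, h6, _, _, _, h10⟩ := hSUB'
  have hFD : F ⊆ D := by
    obtain ⟨r, hr, hrF⟩ := hF.cpt
    intro z hz
    exact mem_ball_zero_iff.2 (lt_of_le_of_lt (hrF z hz) hr)
  -- the outer fundamental domain
  obtain ⟨F', hF'⟩ : ∃ F' : Set ℂ, F' = rf '' (F \ {0}) := ⟨_, rfl⟩
  have hF'mem : ∀ z, z ∈ F' ↔ rf z ∈ F ∧ rf z ≠ 0 := by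
    intro z
    rw [hF']
    constructor
    · rintro ⟨w, hw, rfl⟩
      rw [rf_rf]
      exact hw
    · intro h
      exact ⟨rf z, h, rf_rf z⟩
  have hF'meas : MeasurableSet F' := by
    have : F' = rf ⁻¹' (F \ {0}) := by
      ext z
      rw [hF'mem]
      rfl
    rw [this]
    exact rf_meas (hF.meas.diff (measurableSet_singleton 0))
  have hF'D : ∀ z ∈ F', 1 < ‖z‖ := by
    intro z hz
    obtain ⟨w, hw⟩ : ∃ w, w = rf z := ⟨_, rfl⟩
    have hz' := (hF'mem z).1 hz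
    rw [← hw] at hz'
    have hw1 : ‖w‖ < 1 := mem_ball_zero_iff.1 (hFD hz'.1)
    have hw0 : 0 < ‖w‖ := norm_pos_iff.2 hz'.2
    have : z = rf w := by rw [hw, rf_rf]
    rw [this]
    unfold rf
    rw [norm_div, norm_one, RCLike.norm_conj]
    exact (one_lt_div hw0).2 hw1
  rw [← hF']
  obtain ⟨E, hE⟩ : ∃ E : Set ℂ, E = G '' F' := ⟨_, rfl⟩
  rw [← hE]
  have hEmeas : MeasurableSet E := by
    rw [hE]
    exact G.measurableEmbedding.measurableSet_image' hF'meas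
  have hGF : MeasurableSet (G '' F) := G.measurableEmbedding.measurableSet_image' hF.meas
  have hEmem : ∀ z, G z ∈ E ↔ z ∈ F' := by
    intro z
    rw [hE]
    exact G.injective.mem_set_image
  -- the translates
  obtain ⟨W, hW⟩ : ∃ W : Γ → Set ℂ, W = fun γ => {ξ | den (R γ) ξ ≠ 0 ∧ mob (R γ) ξ ∈ E} :=
    ⟨_, rfl⟩
  have hWmeas : ∀ γ, MeasurableSet (W γ) := by
    intro γ
    rw [hW]
    exact ((den_meas (R γ)) (measurableSet_singleton (0 : ℂ))).compl.inter (mob_meas (R γ) hEmeas)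
  have hWmem : ∀ γ z, G z ∈ W γ ↔ den (s γ) z ≠ 0 ∧ mob (s γ) z ∈ F' := by
    intro γ z
    obtain ⟨r1, r2, _, _⟩ := hR γ
    have : G z ∈ W γ ↔ den (R γ) (G z) ≠ 0 ∧ mob (R γ) (G z) ∈ E := by rw [hW]; rfl
    rw [this]
    constructor
    · rintro ⟨a1, a2⟩
      have a3 : den (s γ) z ≠ 0 := fun h => a1 ((r1 z).1 h)
      refine ⟨a3, ?_⟩
      rw [← r2 z a3] at a2
      exact (hEmem _).1 a2
    · rintro ⟨a1, a2⟩
      refine ⟨fun h => a1 ((r1 z).2 h), ?_⟩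
      rw [← r2 z a1]
      exact (hEmem _).2 a2
  have hWout : ∀ γ z, G z ∈ W γ → 1 < ‖z‖ := by
    intro γ z hz
    obtain ⟨a1, a2⟩ := (hWmem γ z).1 hz
    have a3 := h5 (s γ) (hs.su γ) z a1
    have a4 := hF'D _ a2
    by_contra hc
    push Not at hc
    have a5 : 0 ≤ 1 - ‖z‖ ^ 2 := by nlinarith [norm_nonneg z]
    have a6 : 1 - ‖mob (s γ) z‖ ^ 2 < 0 := by nlinarith
    have a7 : 0 < ‖den (s γ) z‖ ^ 2 := by
      have := norm_pos_iff.2 a1
      positivity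
    have := mul_neg_of_neg_of_pos a6 a7
    linarith
  -- reflection
  have hrefl : ∀ γ z, 1 < ‖z‖ → rf z ∈ D ∧ mob (s γ) (rf z) = rf (mob (s γ) z) ∧
      den (s γ) (rf z) ≠ 0 := by
    intro γ z hz
    have hz0 : z ≠ 0 := by
      intro h
      rw [h, norm_zero] at hz
      linarith
    have hr1 : ‖rf z‖ < 1 := by
      unfold rf
      rw [norm_div, norm_one, RCLike.norm_conj, div_lt_one (by linarith)]
      exact hz
    exact ⟨mem_ball_zero_iff.2 hr1, h6 (s γ) (hs.su γ) z hz0, h4 (s γ) (hs.su γ) _ hr1.le⟩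
  have hWdisj : Pairwise (Function.onFun Disjoint W) := by
    intro γ δ hγδ
    rw [Function.onFun, Set.disjoint_left]
    intro ξ x1 x2
    apply hγδ
    obtain ⟨z, rfl⟩ := G.surjective ξ
    have hz := hWout γ z x1
    obtain ⟨_, a1⟩ := (hWmem γ z).1 x1
    obtain ⟨_, a2⟩ := (hWmem δ z).1 x2
    obtain ⟨_, b1, b2⟩ := hrefl γ z hz
    obtain ⟨_, c1, _⟩ := hrefl δ z hz
    have u1 := ((hF'mem _).1 a1).1
    have u2 := ((hF'mem _).1 a2).1
    rw [← b1] at u1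
    rw [← c1] at u2
    obtain ⟨d1, d2⟩ := h10 (s γ) (rf z) b2
    have d3 : den (s γ)⁻¹ (mob (s γ) (rf z)) ≠ 0 := by
      intro h
      rw [h, zero_mul] at d2
      exact zero_ne_one d2
    have d4 := (h1 (s δ) (s γ)⁻¹ (mob (s γ) (rf z)) d3).2
    rw [d1, ← map_inv, ← map_mul] at d4
    rw [← d4] at u2
    have := hF.uni _ u1 (δ * γ⁻¹) u2
    exact (mul_inv_eq_one.1 this).symm
  -- the union
  have hcover : (G '' Dx : Set ℂ) =ᵐ[volume] ⋃ γ, W γ := by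
    rw [ae_eq_set]
    constructor
    · have hsub : (G '' Dx : Set ℂ) \ ⋃ γ, W γ ⊆
          ⋃ γ : Γ, G '' {z | 1 < ‖z‖ ∧ mob (s γ) (rf z) = 0} := by
        rintro ξ ⟨⟨z, hz, rfl⟩, hn⟩
        have hz1 : 1 < ‖z‖ := hz
        by_contra hc
        apply hn
        obtain ⟨hD, _, _⟩ := hrefl 1 z hz1
        obtain ⟨γ, hγ⟩ := hF.cov _ hD
        have hne : mob (s γ) (rf z) ≠ 0 := by
          intro h0
          apply hc
          exact mem_iUnion.2 ⟨γ, z, ⟨hz1, h0⟩, rfl⟩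
        obtain ⟨_, b1, _⟩ := hrefl γ z hz1
        rw [b1] at hγ hne
        refine mem_iUnion.2 ⟨γ, (hWmem γ z).2 ⟨?_, (hF'mem _).2 ⟨hγ, hne⟩⟩⟩
        intro h0
        apply hne
        have : mob (s γ) z = 0 := by
          unfold mob
          rw [h0, div_zero]
        rw [this]
        unfold rf
        simp
      refine measure_mono_null hsub ?_
      refine Set.Countable.measure_zero (countable_iUnion fun γ => ?_) _
      refine Set.Subsingleton.countable ?_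
      rintro _ ⟨z, ⟨hz, hz0⟩, rfl⟩ _ ⟨w, ⟨hw, hw0⟩, rfl⟩
      congr 1
      obtain ⟨_, _, b2⟩ := hrefl γ z hz
      obtain ⟨_, _, c2⟩ := hrefl γ w hw
      have d1 := (h10 (s γ) (rf z) b2).1
      have d2 := (h10 (s γ) (rf w) c2).1
      rw [hz0] at d1
      rw [hw0] at d2
      rw [← rf_rf z, ← rf_rf w, ← d1, ← d2]
    · have : (⋃ γ, W γ) \ (G '' Dx : Set ℂ) = ∅ := by
        rw [sdiff_eq_empty]
        intro ξ hξ
        obtain ⟨γ, hγ⟩ := mem_iUnion.1 hξ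
        obtain ⟨z, rfl⟩ := G.surjective ξ
        exact ⟨z, hWout γ z hγ, rfl⟩
      rw [this, measure_empty]
  -- change of variables
  have hcv : ∀ γ, ∀ a ∈ G '' F, ∫⁻ ξ in W γ, kk ξ a = ∫⁻ ξ in E, KK (R γ) ξ a := by
    intro γ a ha
    have haD : a ∈ G '' D := image_mono hFD ha
    have hda := (i1 γ a haD).1
    obtain ⟨E1, hE1⟩ : ∃ E1 : Set ℂ, E1 = {ξ | ξ ∈ E ∧ den (R γ)⁻¹ ξ ≠ 0} := ⟨_, rfl⟩
    have hE1m : MeasurableSet E1 := by
      rw [hE1]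
      exact hEmeas.inter ((den_meas (R γ)⁻¹) (measurableSet_singleton (0 : ℂ))).compl
    have hE1m' : ∀ ξ ∈ E1, ξ ∈ E ∧ den (R γ)⁻¹ ξ ≠ 0 := fun ξ hξ => by rw [hE1] at hξ; exact hξ
    have himg : mob (R γ)⁻¹ '' E1 = W γ := by
      ext ξ
      constructor
      · rintro ⟨ξ', hξ', rfl⟩
        obtain ⟨a1, a2⟩ := hE1m' ξ' hξ'
        obtain ⟨b1, b2⟩ := h10 (R γ)⁻¹ ξ' a2
        rw [inv_inv] at b1 b2
        rw [hW]
        refine ⟨?_, ?_⟩
        · intro h0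
          rw [h0, zero_mul] at b2
          exact zero_ne_one b2
        · rw [b1]
          exact a1
      · intro hξ
        have hξ' : den (R γ) ξ ≠ 0 ∧ mob (R γ) ξ ∈ E := by rw [hW] at hξ; exact hξ
        obtain ⟨b1, b2⟩ := h10 (R γ) ξ hξ'.1
        refine ⟨mob (R γ) ξ, ?_, b1⟩
        rw [hE1]
        refine ⟨hξ'.2, ?_⟩
        intro h0
        rw [h0, zero_mul] at b2
        exact zero_ne_one b2
    have hinj : InjOn (mob (R γ)⁻¹) E1 := by
      intro x hx y hy hxy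
      have b1 := (h10 (R γ)⁻¹ x (hE1m' x hx).2).1
      have b2 := (h10 (R γ)⁻¹ y (hE1m' y hy).2).1
      rw [← b1, ← b2, hxy]
    have hopen : IsOpen {ξ : ℂ | den (R γ)⁻¹ ξ ≠ 0} := by
      have : Continuous (den (R γ)⁻¹) := by
        unfold den
        fun_prop
      exact isOpen_ne_fun this continuous_const
    have h7 := hCVH {ξ : ℂ | den (R γ)⁻¹ ξ ≠ 0} E1 (mob (R γ)⁻¹) hopen
      (fun ξ hξ => (h2 (R γ)⁻¹ ξ hξ).differentiableAt.differentiableWithinAt)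
      (fun ξ hξ => (hE1m' ξ hξ).2) hE1m hinj (fun ξ => kk ξ a)
    rw [himg] at h7
    rw [h7]
    have h8 : ∫⁻ ξ in E1, kk (mob (R γ)⁻¹ ξ) a * ENNReal.ofReal (‖deriv (mob (R γ)⁻¹) ξ‖ ^ 2) =
        ∫⁻ ξ in E1, KK (R γ) ξ a := by
      refine setLIntegral_congr_fun hE1m ?_
      intro ξ hξ
      exact kk_id hSUB (R γ) ξ a (hE1m' ξ hξ).2 hda
    rw [h8]
    refine setLIntegral_congr ?_
    rw [ae_eq_set]
    constructor
    · have : E1 \ E = ∅ := by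
        rw [sdiff_eq_empty]
        exact fun ξ hξ => (hE1m' ξ hξ).1
      rw [this, measure_empty]
    · refine measure_mono_null (t := {ξ : ℂ | den (R γ)⁻¹ ξ = 0}) ?_
        ((den_sub (R γ)⁻¹).measure_zero volume)
      rintro ξ ⟨e1, e2⟩
      by_contra hc
      apply e2
      rw [hE1]
      exact ⟨e1, hc⟩
  exact assemble G R hcount E W hEmeas hGF hWmeas hWdisj hcover hcv i3

end Pool.Agent.Helper38.QE
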