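import Pool.Agent.Helper61.QE.St2

/-!
# Project QD (MP_d112a4_gt), PART E, module EDD: symmetric coefficients preserve the disc
-/

open MeasureTheory Set Filter Topology Complex
open scoped ContDiff ComplexConjugate ENNReal

namespace Pool.Agent.Helper38.QE

open Pool.Agent.Helper68.QC Pool.Agent.Helper61.QE

private theorem rf_circle {z : ℂ} (hz : ‖z‖ = 1) : rf z = z := by
  unfold rf
  have h0 : z ≠ 0 := by
    intro h0
    rw [h0, norm_zero] at hz
    exact zero_ne_one hz
  have h1 : z * conj z = 1 := by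
    rw [Complex.mul_conj, Complex.normSq_eq_norm_sq, hz]
    norm_num
  have h2 : conj z ≠ 0 := by
    intro h
    rw [h, mul_zero] at h1
    exact zero_ne_one h1
  rw [div_eq_iff h2, h1]

private theorem circle_rf {w : ℂ} (hw : w ≠ 0) (h : w = rf w) : ‖w‖ = 1 := by
  unfold rf at h
  have h2 : conj w ≠ 0 := fun h0 => hw (by simpa using h0)
  rw [eq_div_iff h2, Complex.mul_conj, Complex.normSq_eq_norm_sq] at h
  have h3 : ‖w‖ ^ 2 = 1 := by exact_mod_cast h
  exact (pow_eq_one_iff_of_nonneg (norm_nonneg w) two_ne_zero).1 h3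

/-- a symmetric injective map preserves the circle -/
private theorem circ {f : ℂ → ℂ} (hf : Function.Injective f) (h0 : f 0 = 0)
    (hr : ∀ z, f (rf z) = rf (f z)) {z : ℂ} (hz : ‖z‖ = 1) : ‖f z‖ = 1 := by
  refine circle_rf ?_ ?_
  · intro h
    have : z = 0 := hf (h.trans h0.symm)
    rw [this, norm_zero] at hz
    exact zero_ne_one hz
  · conv_lhs => rw [← rf_circle hz]
    exact hr z

private theorem disc {f : ℂ → ℂ} (hf : Continuous f) (h0 : f 0 = 0)
    (hb : ∀ z, ‖f z‖ = 1 → ‖z‖ = 1) {z : ℂ} (hz : ‖z‖ < 1) : ‖f z‖ < 1 := by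
  by_contra hc
  push Not at hc
  have hpre : IsPreconnected (Metric.ball (0 : ℂ) 1) := (convex_ball 0 1).isPreconnected
  have h1 := hpre.intermediate_value (a := 0) (b := z) (f := fun w => ‖f w‖)
    (Metric.mem_ball_self one_pos) (mem_ball_zero_iff.2 hz) hf.norm.continuousOn
  obtain ⟨w, hw, hw1⟩ := h1 (show (1 : ℝ) ∈ Icc (‖f 0‖) (‖f z‖) from by
    rw [h0, norm_zero]
    exact ⟨zero_le_one, hc⟩)
  have h2 := hb w hw1
  rw [mem_ball_zero_iff] at hw
  linarith

/-- matrices which preserve the circle and the disc -/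
private theorem su_of {a b c d : ℂ} (hdet : a * d - b * c = 1)
    (hcirc : ∀ ζ : ℂ, ‖ζ‖ = 1 → ‖a * ζ + b‖ = ‖c * ζ + d‖) (hbd : ‖b‖ < ‖d‖) :
    d = conj a ∧ c = conj b := by
  have hn : ∀ ζ : ℂ, ‖ζ‖ = 1 → Complex.normSq (a * ζ + b) = Complex.normSq (c * ζ + d) := by
    intro ζ hζ
    rw [Complex.normSq_eq_norm_sq, Complex.normSq_eq_norm_sq, hcirc ζ hζ]
  have e1 := hn 1 (by simp)
  have e2 := hn (-1) (by simp)
  have e3 := hn I (by simp)
  have e4 := hn (-I) (by simp)
  simp only [Complex.normSq_apply, Complex.add_re, Complex.add_im, Complex.mul_re, Complex.mul_im,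
    Complex.one_re, Complex.one_im, Complex.neg_re, Complex.neg_im, Complex.I_re,
    Complex.I_im] at e1 e2 e3 e4
  have k1 : a * conj b = c * conj d := by
    apply Complex.ext
    · simp only [Complex.mul_re, Complex.conj_re, Complex.conj_im]
      linarith
    · simp only [Complex.mul_im, Complex.conj_re, Complex.conj_im]
      linarith
  have k2 : ‖a‖ ^ 2 + ‖b‖ ^ 2 = ‖c‖ ^ 2 + ‖d‖ ^ 2 := by
    rw [← Complex.normSq_eq_norm_sq, ← Complex.normSq_eq_norm_sq, ← Complex.normSq_eq_norm_sq,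
      ← Complex.normSq_eq_norm_sq]
    simp only [Complex.normSq_apply]
    linarith
  obtain ⟨x, hx⟩ : ∃ x : ℝ, x = ‖d‖ ^ 2 - ‖b‖ ^ 2 := ⟨_, rfl⟩
  have hx0 : 0 < x := by
    rw [hx]
    have := norm_nonneg b
    nlinarith
  have hxa : x = ‖a‖ ^ 2 - ‖c‖ ^ 2 := by rw [hx]; linarith
  have k1' : conj a * b = conj c * d := by
    have := congrArg conj k1
    simpa using this
  have na : a * conj a = ((‖a‖ ^ 2 : ℝ) : ℂ) := by
    rw [Complex.mul_conj, Complex.normSq_eq_norm_sq]
  have nb : b * conj b = ((‖b‖ ^ 2 : ℝ) : ℂ) := by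
    rw [Complex.mul_conj, Complex.normSq_eq_norm_sq]
  have nc : c * conj c = ((‖c‖ ^ 2 : ℝ) : ℂ) := by
    rw [Complex.mul_conj, Complex.normSq_eq_norm_sq]
  have nd : d * conj d = ((‖d‖ ^ 2 : ℝ) : ℂ) := by
    rw [Complex.mul_conj, Complex.normSq_eq_norm_sq]
  have f1 : conj a = (x : ℂ) * d := by
    rw [hxa, Complex.ofReal_sub, ← na, ← nc]
    linear_combination (-(conj a)) * hdet - c * k1'
  have f2 : conj d = (x : ℂ) * a := by
    rw [hx, Complex.ofReal_sub, ← nd, ← nb]
    linear_combination (-(conj d)) * hdet + b * k1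
  have f3 : d = (x : ℂ) * conj a := by
    have := congrArg conj f2
    simpa using this
  have hd0 : d ≠ 0 := by
    intro h0
    rw [h0, norm_zero] at hbd
    linarith [norm_nonneg b]
  have hx1 : x = 1 := by
    have h1 : ((x : ℂ) ^ 2 - 1) * d = 0 := by
      have : d = (x : ℂ) * ((x : ℂ) * d) := by rw [← f1]; exact f3
      linear_combination -this
    rcases mul_eq_zero.1 h1 with h2 | h2
    · have h3 : (x : ℂ) ^ 2 = 1 := sub_eq_zero.1 h2
      have h4 : x ^ 2 = 1 := by exact_mod_cast h3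
      nlinarith
    · exact absurd h2 hd0
  rw [hx1, Complex.ofReal_one, one_mul] at f1 f2
  refine ⟨f1.symm, ?_⟩
  have ha0 : a ≠ 0 := by
    rw [← f2]
    intro h0
    exact hd0 (by simpa using h0)
  have h5 : a * (c - conj b) = 0 := by
    rw [f2] at k1
    linear_combination -k1
  rcases mul_eq_zero.1 h5 with h6 | h6
  · exact absurd h6 ha0
  · exact sub_eq_zero.1 h6

theorem pEDD (hSYC : Pool.Agent.Helper68.QC.StSYC) (hEX : Pool.Agent.Helper68.QC.StEX)
    (hSUB : Pool.Agent.Helper61.QE.StSUB) : Pool.Agent.Helper61.QE.StEDD := by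
  intro k hk μ hμ hsym
  have hr : ∀ z, nq μ (rf z) = rf (nq μ z) := hSYC k hk μ hμ hsym
  have h0 : nq μ 0 = 0 := (hEX k hk μ hμ).zero
  have hs0 : (nq μ).symm 0 = 0 := by
    conv_lhs => rw [← h0]
    exact (nq μ).symm_apply_apply 0
  have hrs : ∀ z, (nq μ).symm (rf z) = rf ((nq μ).symm z) := by
    intro z
    apply (nq μ).injective
    rw [hr, (nq μ).apply_symm_apply, (nq μ).apply_symm_apply]
  have c1 : ∀ z, ‖z‖ = 1 → ‖nq μ z‖ = 1 := fun z hz => circ (nq μ).injective h0 hr hz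
  have c2 : ∀ z, ‖z‖ = 1 → ‖(nq μ).symm z‖ = 1 := fun z hz =>
    circ (nq μ).symm.injective hs0 hrs hz
  have b1 : ∀ z, ‖nq μ z‖ = 1 → ‖z‖ = 1 := by
    intro z hz
    have := c2 _ hz
    rwa [(nq μ).symm_apply_apply] at this
  have b2 : ∀ z, ‖(nq μ).symm z‖ = 1 → ‖z‖ = 1 := by
    intro z hz
    have := c1 _ hz
    rwa [(nq μ).apply_symm_apply] at this
  have d1 : ∀ z, ‖z‖ < 1 → ‖nq μ z‖ < 1 := fun z hz => disc (nq μ).continuous h0 b1 hz
  have d2 : ∀ z, ‖z‖ < 1 → ‖(nq μ).symm z‖ < 1 := fun z hz =>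
    disc (nq μ).symm.continuous hs0 b2 hz
  have x1 : ∀ z, 1 < ‖z‖ → 1 < ‖nq μ z‖ := by
    intro z hz
    by_contra hc
    push Not at hc
    rcases hc.lt_or_eq with h | h
    · have := d2 _ h
      rw [(nq μ).symm_apply_apply] at this
      linarith
    · linarith [b1 z h]
  have x2 : ∀ z, 1 < ‖z‖ → 1 < ‖(nq μ).symm z‖ := by
    intro z hz
    by_contra hc
    push Not at hc
    rcases hc.lt_or_eq with h | h
    · have := d1 _ h
      rw [(nq μ).apply_symm_apply] at this
      linarith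
    · linarith [b2 z h]
  refine ⟨?_, ?_, hr, hrs, h0, hs0, ?_⟩
  · ext w
    constructor
    · rintro ⟨z, hz, rfl⟩
      exact mem_ball_zero_iff.2 (d1 z (mem_ball_zero_iff.1 hz))
    · intro hw
      exact ⟨(nq μ).symm w, mem_ball_zero_iff.2 (d2 w (mem_ball_zero_iff.1 hw)),
        (nq μ).apply_symm_apply w⟩
  · ext w
    constructor
    · rintro ⟨z, hz, rfl⟩
      exact x1 z hz
    · intro hw
      exact ⟨(nq μ).symm w, x2 w hw, (nq μ).apply_symm_apply w⟩
  · intro A B hA hAB
    obtain ⟨i1, i2, _, _⟩ := hAB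
    have hden : ∀ z, ‖z‖ ≤ 1 → den A z ≠ 0 := hSUB.2.2.2.1 A hA
    have hnrm := hSUB.2.2.2.2.1 A hA
    have hdet : B 0 0 * B 1 1 - B 0 1 * B 1 0 = 1 := by
      have := B.det_coe
      rw [Matrix.det_fin_two] at this
      exact this
    refine su_of hdet ?_ ?_
    · intro ζ hζ
      obtain ⟨z, hz⟩ : ∃ z, z = (nq μ).symm ζ := ⟨_, rfl⟩
      have hz1 : ‖z‖ = 1 := by rw [hz]; exact c2 ζ hζ
      have hez : nq μ z = ζ := by rw [hz]; exact (nq μ).apply_symm_apply ζ
      have hdA := hden z hz1.le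
      have hdB : den B ζ ≠ 0 := by
        rw [← hez]
        exact fun h => hdA ((i1 z).2 h)
      have hm : ‖mob A z‖ = 1 := by
        have h1 := hnrm z hdA
        rw [hz1] at h1
        have h2 : (0 : ℝ) < ‖den A z‖ ^ 2 := by
          have := norm_pos_iff.2 hdA
          positivity
        have h3 : 1 - ‖mob A z‖ ^ 2 = 0 := by
          rcases mul_eq_zero.1 (h1.trans (by norm_num)) with h | h
          · exact h
          · exact absurd h h2.ne'
        have h4 : ‖mob A z‖ ^ 2 = 1 := by linarith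
        exact (pow_eq_one_iff_of_nonneg (norm_nonneg (mob A z)) two_ne_zero).1 h4
      have h5 : ‖mob B ζ‖ = 1 := by
        rw [← hez, ← i2 z hdA]
        exact c1 _ hm
      have h6 : mob B ζ = (B 0 0 * ζ + B 0 1) / den B ζ := rfl
      rw [h6, norm_div, div_eq_one_iff_eq (norm_ne_zero_iff.2 hdB)] at h5
      exact h5
    · have hdA := hden 0 (by simp)
      have hdB : den B 0 ≠ 0 := by
        have := i1 0
        rw [h0] at this
        exact fun h => hdA (this.2 h)
      have hm : ‖mob A 0‖ < 1 := by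
        have h1 := hnrm 0 hdA
        have h2 : (0 : ℝ) < ‖den A 0‖ ^ 2 := by
          have := norm_pos_iff.2 hdA
          positivity
        rw [norm_zero] at h1
        have h3 : 0 < 1 - ‖mob A 0‖ ^ 2 := by
          by_contra hc
          push Not at hc
          nlinarith
        nlinarith [norm_nonneg (mob A 0)]
      have h5 : ‖mob B 0‖ < 1 := by
        have := i2 0 hdA
        rw [h0] at this
        rw [← this]
        exact d1 _ hm
      have h6 : mob B 0 = (B 0 0 * 0 + B 0 1) / (B 1 0 * 0 + B 1 1) := rfl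
      have h7 : den B 0 = B 1 0 * 0 + B 1 1 := rfl
      rw [h6, mul_zero, zero_add, mul_zero, zero_add, norm_div] at h5
      rw [h7, mul_zero, zero_add] at hdB
      rwa [div_lt_one (norm_pos_iff.2 hdB)] at h5

end Pool.Agent.Helper38.QE
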